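import Mathlib
import Pool.Agent.Helper56.SKF.Defs

/-!
# The p-character near infinity
-/

namespace Pool.Agent.Helper88.SKF

open Module Pool.Agent.Helper56.SKW Pool.Agent.Helper56.SKW.PBW Pool.Agent.Helper56.SKU
  Pool.Agent.Helper56.SKR Pool.Agent.Helper56.SKF

universe u v w

/-- The reduction argument for scaled operators. -/
theorem near_core {F : Type u} [Field F] {O : ValuationSubring F} {m : Type} [Fintype m]
    {p : ℕ} [hp : Fact p.Prime] [CharP F p] (η : O) (hη : IsLocalRing.residue O η = 0)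
    {V : Type v} [AddCommGroup V] [Module F V] [FiniteDimensional F V] [Nontrivial V]
    (f : m → Module.End F V) (cc : m → m → m → O)
    (hcomm : ∀ i j, f i * f j = f j * f i + (η : F) • ∑ z, (cc i j z : F) • f z)
    (dd : m → m → O) (t δ : m → O) (hδ : ∀ i, IsLocalRing.residue O (δ i) = 0)
    (hpow : ∀ i, f i ^ p = (η : F) • ∑ z, (dd i z : F) • f z +
      ((t i : F) ^ p + δ i) • (1 : Module.End F V))
    (a b : m → O) (c : F)
    (h : (∑ i, (a i : F) • f i) ^ p = (η : F) • ∑ i, (b i : F) • f i +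
      c • (1 : Module.End F V)) :
    ∃ δ' : O, IsLocalRing.residue O δ' = 0 ∧ c = (∑ i, (a i : F) * t i) ^ p + δ' := by
  classical
  let _ : Module O V := Module.compHom V (algebraMap O F)
  have hstV : IsScalarTower O F V := ⟨fun a b c => by
    show (a • b) • c = algebraMap O F a • (b • c)
    rw [smul_smul, Algebra.smul_def a b]⟩
  let _ : Algebra O (Module.End F V) := Algebra.compHom _ (algebraMap O F)
  have hstE : IsScalarTower O F (Module.End F V) := ⟨fun a b c => by
    show (a • b) • c = algebraMap O F a • (b • c)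
    rw [smul_smul, Algebra.smul_def a b]⟩
  let _ : LinearOrder m := LinearOrder.lift' (Fintype.equivFin m) (Fintype.equivFin m).injective
  have h1m : ∀ d, 1 ≤ d → (1 : Module.End F V) ∈ FF O f d := fun d hd =>
    FF_mem O f (l := []) (by simp; omega)
  have hxm : ∀ x d, 2 ≤ d → f x ∈ FF O f d := fun x d hd => by
    have := FF_mem O f (l := [x]) (d := d) (by simp; omega)
    simpa [pwf] using this
  have hcc : ∀ x y, ∃ s : O, IsUnit s ∧ f x * f y - s • (f y * f x) ∈ FF O f 2 := by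
    intro x y
    refine ⟨1, isUnit_one, ?_⟩
    rw [one_smul, hcomm, add_sub_cancel_left]
    exact osmul_mem _ η.2 (Submodule.sum_mem _ fun z _ =>
      osmul_mem _ (cc x y z).2 (hxm _ _ le_rfl))
  have hn : ∀ x, f x ^ (fun _ : m => p) x ∈ FF O f ((fun _ : m => p) x) := by
    intro x
    show f x ^ p ∈ FF O f p
    rw [hpow]
    refine Submodule.add_mem _ (osmul_mem _ η.2 (Submodule.sum_mem _ fun z _ =>
      osmul_mem _ (dd x z).2 (hxm _ _ hp.out.two_le))) ?_
    exact osmul_mem _ (add_mem (pow_mem (t x).2 _) (δ x).2) (h1m _ hp.out.one_le)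
  let L : Submodule O (Module.End F V) := Submodule.span O (Set.range (pwf f))
  have hfg : L.FG := by
    refine ⟨(Finset.univ.image fun r : (x : m) → Fin p => pwf f (sw fun x => (r x : ℕ))), ?_⟩
    apply le_antisymm
    · rw [Submodule.span_le]
      intro x hx
      simp only [Finset.coe_image, Finset.coe_univ, Set.image_univ, Set.mem_range] at hx
      obtain ⟨r, rfl⟩ := hx
      exact Submodule.subset_span ⟨_, rfl⟩
    · show Submodule.span O (Set.range (pwf f)) ≤ _
      rw [Submodule.span_le]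
      rintro _ ⟨l, rfl⟩
      have h3 := pwf_span hcc (fun _ => p) hn l
      simp only [Finset.coe_image, Finset.coe_univ, Set.image_univ]
      exact h3
  have hL1 : (1 : Module.End F V) ∈ L := Submodule.subset_span ⟨[], rfl⟩
  have hLf : ∀ i, f i ∈ L := fun i => Submodule.subset_span ⟨[i], by simp [pwf]⟩
  have hLmul : ∀ {S T : Module.End F V}, S ∈ L → T ∈ L → S * T ∈ L := fun hS hT =>
    words_mul f hS hT
  let e := Module.finBasis F V
  let ev : Fin (finrank F V) → (Module.End F V →ₗ[O] V) := fun i =>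
    { toFun := fun T => T (e i)
      map_add' := fun T T' => rfl
      map_smul' := fun c T => rfl }
  let Λ : Submodule O V := ⨆ i, L.map (ev i)
  have hΛfg : Λ.FG := Submodule.fg_iSup _ fun i => hfg.map (ev i)
  have hsp : ∀ v, v ∈ Submodule.span F (Λ : Set V) := by
    intro v
    rw [← e.sum_repr v]
    refine Submodule.sum_mem _ fun i _ => Submodule.smul_mem _ _ (Submodule.subset_span ?_)
    exact Submodule.mem_iSup_of_mem i ⟨1, hL1, rfl⟩
  have hst : ∀ T ∈ L, T ∈ stab Λ := by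
    intro T hT v hv
    have h6 : Λ ≤ Λ.comap ({ toFun := fun v => T v, map_add' := map_add T, map_smul' :=
        (fun c v => by
          rw [smul_eq, map_smul, ← smul_eq]
          rfl) } : V →ₗ[O] V) := by
      refine iSup_le fun i => ?_
      rintro _ ⟨S, hS, rfl⟩
      exact Submodule.mem_iSup_of_mem i ⟨T * S, hLmul hT hS, rfl⟩
    exact h6 hv
  obtain ⟨V', _, _, hfin, hrank, Φ, hΦ⟩ := exists_red Λ hΛfg hsp
  have hnt : Nontrivial V' := by
    have : 0 < finrank (IsLocalRing.ResidueField O) V' := by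
      rw [hrank]
      exact Module.finrank_pos
    exact Module.nontrivial_of_finrank_pos this
  have hsm : ∀ (r : O) (X : stab Λ), (r : F) • (X : Module.End F V) ∈ stab Λ := by
    intro r X v hv
    show (r : F) • ((X : Module.End F V) v) ∈ Λ
    rw [← smul_eq]
    exact Λ.smul_mem _ (X.2 v hv)
  have hΦs : ∀ (r : O) (X : stab Λ), Φ ⟨_, hsm r X⟩ = IsLocalRing.residue O r • Φ X :=
    fun r X => hΦ r X ⟨_, hsm r X⟩ rfl
  let A : m → Module.End (IsLocalRing.ResidueField O) V' := fun i => Φ ⟨f i, hst _ (hLf i)⟩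
  let S : (m → O) → stab Λ := fun r => ∑ z, ⟨_, hsm (r z) ⟨f z, hst _ (hLf z)⟩⟩
  have hS : ∀ r, ((S r : stab Λ) : Module.End F V) = ∑ z, (r z : F) • f z := by
    intro r
    show (stab Λ).subtype (S r) = _
    simp only [S, map_sum]
    rfl
  have hΦS : ∀ r, Φ (S r) = ∑ z, IsLocalRing.residue O (r z) • A z := by
    intro r
    simp only [S, map_sum]
    exact Finset.sum_congr rfl fun z _ => hΦs (r z) ⟨f z, hst _ (hLf z)⟩
  have hA : ∀ i j, A i * A j = A j * A i := by
    intro i j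
    have h1 : (⟨f i, hst _ (hLf i)⟩ : stab Λ) * ⟨f j, hst _ (hLf j)⟩ =
        ⟨f j, hst _ (hLf j)⟩ * ⟨f i, hst _ (hLf i)⟩ + ⟨_, hsm η (S (cc i j))⟩ := by
      apply Subtype.ext
      show f i * f j = f j * f i + (η : F) • ((S (cc i j) : stab Λ) : Module.End F V)
      rw [hS, hcomm]
    have h2 := congrArg Φ h1
    rw [map_add, map_mul, map_mul, hΦs, hη, zero_smul, add_zero] at h2
    exact h2
  have hAp : ∀ i, A i ^ p = (IsLocalRing.residue O (t i)) ^ p • (1 : Module.End _ V') := by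
    intro i
    have h1 : (⟨f i, hst _ (hLf i)⟩ : stab Λ) ^ p =
        ⟨_, hsm η (S (dd i))⟩ + ⟨_, hsm (t i ^ p + δ i) 1⟩ := by
      apply Subtype.ext
      show f i ^ p = (η : F) • ((S (dd i) : stab Λ) : Module.End F V) +
        ((t i ^ p + δ i : O) : F) • (1 : Module.End F V)
      rw [hS, hpow]
      rfl
    have h2 := congrArg Φ h1
    rw [map_add, map_pow, hΦs, hη, zero_smul, zero_add, hΦs, map_add, hδ, add_zero, map_pow,
      map_one] at h2
    exact h2
  -- the scalar
  have hC : (S a) ^ p = ⟨_, hsm η (S b)⟩ + ((S a) ^ p - ⟨_, hsm η (S b)⟩) := by abel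
  have hCc : (((S a) ^ p - ⟨_, hsm η (S b)⟩ : stab Λ) : Module.End F V) =
      c • (1 : Module.End F V) := by
    show ((S a : stab Λ) : Module.End F V) ^ p -
      (η : F) • ((S b : stab Λ) : Module.End F V) = c • (1 : Module.End F V)
    rw [hS, hS, h, add_sub_cancel_left]
  set C : stab Λ := (S a) ^ p - ⟨_, hsm η (S b)⟩ with hCdef
  have hcO : c ∈ O := by
    by_contra hcn
    have hinv : c⁻¹ ∈ O := (O.mem_or_inv_mem c).resolve_left hcn
    have hc0 : c ≠ 0 := by
      rintro rfl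
      exact hcn O.zero_mem
    have hres : IsLocalRing.residue O ⟨c⁻¹, hinv⟩ = 0 := by
      rw [IsLocalRing.residue_eq_zero_iff, IsLocalRing.mem_maximalIdeal, mem_nonunits_iff]
      rintro ⟨w, hw⟩
      have h1 : (w : O) * ((w⁻¹ : Oˣ) : O) = 1 := w.mul_inv
      rw [hw] at h1
      have h2 := congrArg (fun x : O => (x : F)) h1
      have h3 : c⁻¹ * ((((w⁻¹ : Oˣ) : O)) : F) = 1 := h2
      have h4 : ((((w⁻¹ : Oˣ) : O)) : F) = c := by
        field_simp at h3
        exact h3
      rw [← h4] at hcn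
      exact hcn (((w⁻¹ : Oˣ) : O)).2
    have h1 : (⟨_, hsm ⟨c⁻¹, hinv⟩ C⟩ : stab Λ) = 1 := by
      apply Subtype.ext
      show c⁻¹ • (C : Module.End F V) = 1
      rw [hCc, smul_smul, inv_mul_cancel₀ hc0, one_smul]
    have h2 := hΦs ⟨c⁻¹, hinv⟩ C
    rw [h1, hres, zero_smul, map_one] at h2
    exact one_ne_zero h2
  have hCeq : C = ⟨_, hsm ⟨c, hcO⟩ 1⟩ := by
    apply Subtype.ext
    show (C : Module.End F V) = c • (1 : Module.End F V)
    exact hCc
  have hchar : CharP (Module.End (IsLocalRing.ResidueField O) V') p := by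
    rw [CharP.charP_iff_prime_eq_zero hp.out]
    have h1 : ((p : ℕ) : stab Λ) = 0 := by
      apply Subtype.ext
      show ((p : ℕ) : Module.End F V) = 0
      have h2 : ((p : ℕ) : Module.End F V) = ((p : ℕ) : F) • (1 : Module.End F V) := by
        rw [Nat.cast_smul_eq_nsmul, nsmul_one]
      rw [h2, CharP.cast_eq_zero, zero_smul]
    rw [← map_natCast Φ, h1, map_zero]
  have hcharF : CharP (IsLocalRing.ResidueField O) p := by
    rw [CharP.charP_iff_prime_eq_zero hp.out]
    have h1 : ((p : ℕ) : O) = 0 := by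
      apply Subtype.ext
      show ((p : ℕ) : F) = 0
      exact CharP.cast_eq_zero F p
    rw [← map_natCast (IsLocalRing.residue O), h1, map_zero]
  have hsum : ∀ s : Finset m, (∑ z ∈ s, IsLocalRing.residue O (a z) • A z) ^ p =
      (∑ z ∈ s, IsLocalRing.residue O (a z) * IsLocalRing.residue O (t z)) ^ p •
        (1 : Module.End _ V') := by
    intro s
    induction s using Finset.induction_on with
    | empty => simp [hp.out.ne_zero]
    | insert i s his ih =>
      rw [Finset.sum_insert his, Finset.sum_insert his]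
      have hcom : Commute (IsLocalRing.residue O (a i) • A i)
          (∑ z ∈ s, IsLocalRing.residue O (a z) • A z) := by
        refine Commute.sum_right _ _ _ fun z _ => ?_
        refine Commute.smul_left (Commute.smul_right ?_ _) _
        exact hA i z
      rw [add_pow_char_of_commute p hcom, add_pow_char, ih, _root_.smul_pow, hAp, smul_smul,
        ← mul_pow, add_smul]
  have hfin2 := congrArg Φ hC
  rw [map_add, map_pow, hΦs, hη, zero_smul, zero_add, hΦS, hsum, hCeq, hΦs, map_one] at hfin2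
  have hres : (∑ z, IsLocalRing.residue O (a z) * IsLocalRing.residue O (t z)) ^ p =
      IsLocalRing.residue O ⟨c, hcO⟩ := by
    have hinj : Function.Injective (algebraMap (IsLocalRing.ResidueField O)
        (Module.End (IsLocalRing.ResidueField O) V')) := FaithfulSMul.algebraMap_injective _ _
    apply hinj
    rw [Algebra.algebraMap_eq_smul_one, Algebra.algebraMap_eq_smul_one]
    exact hfin2
  refine ⟨⟨c, hcO⟩ - (∑ i, a i * t i) ^ p, ?_, ?_⟩
  · rw [map_sub, map_pow, map_sum, ← hres]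
    simp only [map_mul, sub_self]
  · have h1 : ((⟨c, hcO⟩ - (∑ i, a i * t i) ^ p : O) : F) = c - (∑ i, (a i : F) * t i) ^ p := by
      show (O.subtype (⟨c, hcO⟩ - (∑ i, a i * t i) ^ p)) = _
      simp only [map_sub, map_pow, map_sum, map_mul]
      rfl
    rw [h1]
    ring

/-- Operators commuting with an irreducible representation are scalars. -/
theorem irr_scalar {k L₀ L₁ : Type*} [Field k] [AddCommGroup L₀] [Module k L₀] [AddCommGroup L₁]
    [Module k L₁] {g : LieSuper k L₀ L₁} {F V : Type*} [Field F] [IsAlgClosed F] [Algebra k F]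
    [AddCommGroup V] [Module F V] [Module k V] [IsScalarTower k F V] [FiniteDimensional F V]
    (M : GRep g (Module.End F V)) (hM : M.Irr) (T : Module.End F V)
    (hσ : M.σ * T = T * M.σ) (h0 : ∀ x, M.ρ₀ x * T = T * M.ρ₀ x)
    (h1 : ∀ y, M.ρ₁ y * T = T * M.ρ₁ y) : ∃ ζ : F, T = ζ • (1 : Module.End F V) := by
  have := hM.1
  obtain ⟨c, hc⟩ := Module.End.exists_eigenvalue T
  refine ⟨c, ?_⟩
  have hst : ∀ S : Module.End F V, S * T = T * S →
      ∀ v ∈ T.eigenspace c, S v ∈ T.eigenspace c := by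
    intro S hS v hv
    rw [Module.End.mem_eigenspace_iff] at hv ⊢
    have h3 : S (T v) = T (S v) := LinearMap.congr_fun hS v
    rw [← h3, hv, map_smul]
  rcases hM.2 (T.eigenspace c) (hst _ hσ) (fun x => hst _ (h0 x)) (fun y => hst _ (h1 y)) with
    h | h
  · exact absurd h (Module.End.hasEigenvalue_iff.1 hc)
  · apply LinearMap.ext
    intro v
    have : v ∈ T.eigenspace c := by rw [h]; trivial
    exact (Module.End.mem_eigenspace_iff).1 this

theorem near_of_basis {k : Type u} {L₀ L₁ : Type*} [Field k] [AddCommGroup L₀] [Module k L₀]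
    [AddCommGroup L₁] [Module k L₁] {m n : Type} [Fintype m] [Fintype n] [DecidableEq m]
    [DecidableEq n] {g : LieSuper k L₀ L₁} (b₀ : Basis m k L₀) (b₁ : Basis n k L₁) {p : ℕ}
    [hp : Fact p.Prime] [CharP k p] (hp2 : 2 < p) (P : m → L₀)
    {F : Type u} [Field F] [IsAlgClosed F] [Algebra k F] (O : ValuationSubring F) (η : O)
    (hη : IsLocalRing.residue O η = 0) (hη0 : (η : F) ≠ 0) (hk : ∀ a : k, algebraMap k F a ∈ O)
    (θ : L₀ →ₗ[k] k) {V : Type u} [AddCommGroup V] [Module F V] [Module k V] [IsScalarTower k F V]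
    [FiniteDimensional F V] (M : GRep g (Module.End F V)) (hM : M.Irr) (ζ : m → F)
    (hζ : ∀ i, M.ρ₀ (b₀ i) ^ p - M.ρ₀ (P i) = ζ i • 1 ∧ ∃ δ : O, IsLocalRing.residue O δ = 0 ∧
      (η : F) ^ (2 * p) * ζ i = algebraMap k F (θ (b₀ i)) ^ p + δ) :
    M.Near p θ O η := by
  classical
  intro x x' hx0 hx1
  have hFp : CharP F p := charP_of_injective_algebraMap (algebraMap k F).injective p
  have hnt := hM.1
  -- the scalar
  obtain ⟨z, hz⟩ : ∃ z : F, M.ρ₀ x ^ p - M.ρ₀ x' = z • (1 : Module.End F V) := by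
    refine irr_scalar M hM _ ?_ ?_ ?_
    · have h1 : Commute M.σ (M.ρ₀ x) := M.s0 x
      have h2 : M.σ * M.ρ₀ x ^ p = M.ρ₀ x ^ p * M.σ := h1.pow_right p
      rw [mul_sub, sub_mul, h2, M.s0]
    · intro a
      have h1 := comm_pow p M.ρ₀ (M.ρ₀ x) (g.b00 x) (fun a => M.m00 x a) a
      rw [← hx0 a, M.m00] at h1
      rw [mul_sub, sub_mul, sub_eq_sub_iff_sub_eq_sub, ← neg_sub (M.ρ₀ x ^ p * M.ρ₀ a),
        ← h1, neg_sub]
    · intro a
      have h1 := comm_pow p M.ρ₁ (M.ρ₀ x) (g.b01 x) (fun a => M.m01 x a) a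
      rw [← hx1 a, M.m01] at h1
      rw [mul_sub, sub_mul, sub_eq_sub_iff_sub_eq_sub, ← neg_sub (M.ρ₀ x ^ p * M.ρ₁ a),
        ← h1, neg_sub]
  have hlin : ∀ y : L₀, (η : F) ^ 2 • M.ρ₀ y =
      ∑ i, algebraMap k F (b₀.repr y i) • ((η : F) ^ 2 • M.ρ₀ (b₀ i)) := by
    intro y
    conv_lhs => rw [← b₀.sum_repr y]
    rw [map_sum, Finset.smul_sum]
    refine Finset.sum_congr rfl fun i _ => ?_
    rw [map_smul, ← algebraMap_smul F (b₀.repr y i), smul_comm]
  have hlin' : ∀ (y : L₀) (q : ℕ), 3 ≤ q → (η : F) ^ q • M.ρ₀ y =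
      (η : F) • ∑ i, (((η ^ (q - 3) * ⟨algebraMap k F (b₀.repr y i), hk _⟩ : O) : F)) •
        ((η : F) ^ 2 • M.ρ₀ (b₀ i)) := by
    intro y q hq
    have h1 : (η : F) ^ q • M.ρ₀ y = (η : F) ^ (q - 2) • ((η : F) ^ 2 • M.ρ₀ y) := by
      rw [smul_smul, ← pow_add]
      congr 2
      omega
    rw [h1, hlin, Finset.smul_sum, Finset.smul_sum]
    refine Finset.sum_congr rfl fun i _ => ?_
    rw [smul_smul, smul_smul (η : F)]
    congr 1
    have h2 : ((η ^ (q - 3) * ⟨algebraMap k F (b₀.repr y i), hk _⟩ : O) : F) =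
        (η : F) ^ (q - 3) * algebraMap k F (b₀.repr y i) := rfl
    rw [h2, ← mul_assoc, ← pow_succ']
    congr 2
    omega
  choose δ hδ0 hδ using fun i => (hζ i).2
  obtain ⟨δ', hδ', hc⟩ := near_core (O := O) (p := p) η hη (fun i => (η : F) ^ 2 • M.ρ₀ (b₀ i))
    (fun i j z => η ^ (4 - 3) * ⟨algebraMap k F (b₀.repr (g.b00 (b₀ i) (b₀ j)) z), hk _⟩)
    (by
      intro i j
      show (η : F) ^ 2 • M.ρ₀ (b₀ i) * (η : F) ^ 2 • M.ρ₀ (b₀ j) =
        (η : F) ^ 2 • M.ρ₀ (b₀ j) * (η : F) ^ 2 • M.ρ₀ (b₀ i) + _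
      rw [← hlin' (g.b00 (b₀ i) (b₀ j)) 4 (by norm_num), M.m00, smul_mul_smul_comm,
        smul_mul_smul_comm, ← pow_add, smul_sub]
      abel)
    (fun i z => η ^ (2 * p - 3) * ⟨algebraMap k F (b₀.repr (P i) z), hk _⟩)
    (fun i => ⟨algebraMap k F (θ (b₀ i)), hk _⟩) δ hδ0
    (by
      intro i
      show ((η : F) ^ 2 • M.ρ₀ (b₀ i)) ^ p = _
      rw [← hlin' (P i) (2 * p) (by omega), _root_.smul_pow, ← pow_mul]
      show _ = _ + (algebraMap k F (θ (b₀ i)) ^ p + δ i) • (1 : Module.End F V)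
      rw [← hδ i, mul_smul, ← (hζ i).1, smul_sub]
      abel)
    (fun i => ⟨algebraMap k F (b₀.repr x i), hk _⟩)
    (fun i => η ^ (2 * p - 3) * ⟨algebraMap k F (b₀.repr x' i), hk _⟩)
    ((η : F) ^ (2 * p) * z)
    (by
      rw [← hlin' x' (2 * p) (by omega)]
      show (∑ i, algebraMap k F (b₀.repr x i) • ((η : F) ^ 2 • M.ρ₀ (b₀ i))) ^ p = _
      rw [← hlin, _root_.smul_pow, ← pow_mul, mul_smul, ← hz, smul_sub]
      abel)
  refine ⟨z, δ', hδ', hz, ?_⟩
  rw [hc]
  congr 2
  show ∑ i, algebraMap k F (b₀.repr x i) * algebraMap k F (θ (b₀ i)) = algebraMap k F (θ x)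
  conv_rhs => rw [← b₀.sum_repr x]
  rw [map_sum, map_sum]
  refine Finset.sum_congr rfl fun i _ => ?_
  rw [map_smul, smul_eq_mul, map_mul]

end Pool.Agent.Helper88.SKF
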